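import Pool.Agent.H98.RFZ.Targets3

/-!
# rfz_modules row QPRC (helper2): percolation of rare cells
-/

set_option autoImplicit false

open MeasureTheory

namespace Pool.Agent.H2.RFZ

open Pool.Agent.H98.RFC Pool.Agent.H98.RFZ

theorem mem_bx {y v : Site} {r : ℕ} :
    y ∈ bx v r ↔ (v.1 - r ≤ y.1 ∧ y.1 ≤ v.1 + r) ∧ (v.2 - r ≤ y.2 ∧ y.2 ≤ v.2 + r) := by
  unfold bx
  rw [Finset.mem_product, Finset.mem_Icc, Finset.mem_Icc]

theorem mem_box {y : Site} {r : ℕ} :
    y ∈ box r ↔ (-(r : ℤ) ≤ y.1 ∧ y.1 ≤ r) ∧ (-(r : ℤ) ≤ y.2 ∧ y.2 ≤ r) := by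
  unfold box
  rw [Finset.mem_product, Finset.mem_Icc, Finset.mem_Icc]

theorem card_bx (v : Site) (r : ℕ) : (bx v r).card = (2 * r + 1) ^ 2 := by
  unfold bx
  rw [Finset.card_product, Int.card_Icc, Int.card_Icc, sq]
  congr 1 <;> omega

theorem card_box (r : ℕ) : (box r).card = (2 * r + 1) ^ 2 := by
  unfold box
  rw [Finset.card_product, Int.card_Icc, sq]
  congr 1 <;> omega

theorem mem_bx_self (v : Site) (r : ℕ) : v ∈ bx v r := by
  rw [mem_bx]; omega

/-- Self-avoiding lists of `k + 1` cells, the newest cell first. -/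
noncomputable def pth (St : Finset Site) : ℕ → Finset (List Site)
  | 0 => St.image (fun y => [y])
  | k + 1 => (pth St k).biUnion (fun l =>
      ((bx (l.headD (0, 0)) 1).filter (fun y => y ∉ l)).image (fun y => y :: l))

theorem pth_basic (St : Finset Site) : ∀ (k : ℕ) (l : List Site), l ∈ pth St k →
    l ≠ [] ∧ l.Nodup ∧ l.length = k + 1 := by
  intro k
  induction k with
  | zero =>
    intro l hl
    obtain ⟨y, _, rfl⟩ := Finset.mem_image.1 hl
    simp
  | succ k ih =>
    intro l hl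
    obtain ⟨l', hl', hl⟩ := Finset.mem_biUnion.1 hl
    obtain ⟨y, hy, rfl⟩ := Finset.mem_image.1 hl
    obtain ⟨h1, h2, h3⟩ := ih l' hl'
    refine ⟨by simp, List.nodup_cons.2 ⟨(Finset.mem_filter.1 hy).2, h2⟩, ?_⟩
    rw [List.length_cons, h3]

theorem headD_mem {l : List Site} (h : l ≠ []) : l.headD (0, 0) ∈ l := by
  cases l with
  | nil => exact absurd rfl h
  | cons a l => simp

theorem pth_card (St : Finset Site) (k : ℕ) : (pth St k).card ≤ St.card * 8 ^ k := by
  induction k with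
  | zero =>
    rw [pow_zero, mul_one]
    exact Finset.card_image_le
  | succ k ih =>
    have h1 : (pth St (k + 1)).card ≤ ∑ l ∈ pth St k,
        (((bx (l.headD (0, 0)) 1).filter (fun y => y ∉ l)).image (fun y => y :: l)).card :=
      Finset.card_biUnion_le
    have h2 : ∀ l ∈ pth St k,
        (((bx (l.headD (0, 0)) 1).filter (fun y => y ∉ l)).image (fun y => y :: l)).card ≤ 8 := by
      intro l hl
      refine Finset.card_image_le.trans ?_
      have h3 : (bx (l.headD (0, 0)) 1).filter (fun y => y ∉ l) ⊆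
          (bx (l.headD (0, 0)) 1).erase (l.headD (0, 0)) := by
        intro y hy
        obtain ⟨hy1, hy2⟩ := Finset.mem_filter.1 hy
        refine Finset.mem_erase.2 ⟨?_, hy1⟩
        intro h
        exact hy2 (h ▸ headD_mem (pth_basic St k l hl).1)
      refine (Finset.card_le_card h3).trans ?_
      rw [Finset.card_erase_of_mem (mem_bx_self _ _), card_bx]
      norm_num
    calc (pth St (k + 1)).card ≤ ∑ l ∈ pth St k, 8 := h1.trans (Finset.sum_le_sum h2)
      _ = (pth St k).card * 8 := by rw [Finset.sum_const, smul_eq_mul]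
      _ ≤ St.card * 8 ^ k * 8 := Nat.mul_le_mul_right 8 ih
      _ = St.card * 8 ^ (k + 1) := by rw [pow_succ, mul_assoc]

theorem pth_suffix (St : Finset Site) : ∀ (k : ℕ) (l : List Site), l ∈ pth St k → ∀ z ∈ l,
    ∃ j, j ≤ k ∧ ∃ l' ∈ pth St j, (∀ w ∈ l', w ∈ l) ∧ l'.headD (0, 0) = z := by
  intro k
  induction k with
  | zero =>
    intro l hl z hz
    have hl0 := hl
    obtain ⟨y, _, rfl⟩ := Finset.mem_image.1 hl
    exact ⟨0, le_refl 0, [y], hl0, fun w hw => hw, (List.mem_singleton.1 hz).symm⟩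
  | succ k ih =>
    intro l hl z hz
    have hl0 := hl
    obtain ⟨l', hl', hl⟩ := Finset.mem_biUnion.1 hl
    obtain ⟨y, hy, rfl⟩ := Finset.mem_image.1 hl
    rcases List.mem_cons.1 hz with h | h
    · exact ⟨k + 1, le_refl _, y :: l', hl0, fun w hw => hw, by simpa using h.symm⟩
    · obtain ⟨j, hj, l'', h1, h2, h3⟩ := ih l' hl' z h
      exact ⟨j, by omega, l'', h1, fun w hw => List.mem_cons_of_mem _ (h2 w hw), h3⟩

theorem pth_box (N : ℕ) (St : Finset Site) (hSt : St ⊆ box N) : ∀ (k : ℕ) (l : List Site),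
    l ∈ pth St k → l.headD (0, 0) ∈ box (N + k) := by
  intro k
  induction k with
  | zero =>
    intro l hl
    obtain ⟨y, hy, rfl⟩ := Finset.mem_image.1 hl
    exact hSt hy
  | succ k ih =>
    intro l hl
    obtain ⟨l', hl', hl⟩ := Finset.mem_biUnion.1 hl
    obtain ⟨y, hy, rfl⟩ := Finset.mem_image.1 hl
    have h1 := mem_box.1 (ih l' hl')
    have h2 := mem_bx.1 (Finset.mem_filter.1 hy).1
    show y ∈ box (N + (k + 1))
    rw [mem_box]
    push_cast at h1 h2 ⊢
    omega

/-- A separated subset. -/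
theorem exists_separated (r : ℕ) (T : Finset Site) : ∃ S ⊆ T,
    (∀ y ∈ S, ∀ y' ∈ S, y ≠ y' → y - y' ∉ box r) ∧ T.card ≤ (2 * r + 1) ^ 2 * S.card := by
  classical
  have hne : (T.powerset.filter (fun S =>
      ∀ y ∈ S, ∀ y' ∈ S, y ≠ y' → y - y' ∉ box r)).Nonempty :=
    ⟨∅, Finset.mem_filter.2 ⟨Finset.empty_mem_powerset T, by simp⟩⟩
  obtain ⟨S, hS, hmax⟩ := Finset.exists_max_image _ (fun S : Finset Site => S.card) hne
  obtain ⟨hST, hsep⟩ := Finset.mem_filter.1 hS
  have hST' := Finset.mem_powerset.1 hST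
  refine ⟨S, hST', hsep, ?_⟩
  have hcov : T ⊆ S.biUnion (fun s => bx s r) := by
    intro t ht
    rw [Finset.mem_biUnion]
    by_contra hcon
    push Not at hcon
    have htS : t ∉ S := fun h => hcon t h (mem_bx_self t r)
    have hnew : insert t S ∈ T.powerset.filter (fun S =>
        ∀ y ∈ S, ∀ y' ∈ S, y ≠ y' → y - y' ∉ box r) := by
      refine Finset.mem_filter.2 ⟨Finset.mem_powerset.2 (Finset.insert_subset ht hST'), ?_⟩
      have hkey : ∀ s ∈ S, t - s ∉ box r := by
        intro s hs hb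
        apply hcon s hs
        rw [mem_box] at hb
        rw [mem_bx]
        have e1 : (t - s).1 = t.1 - s.1 := rfl
        have e2 : (t - s).2 = t.2 - s.2 := rfl
        rw [e1, e2] at hb
        omega
      intro y hy y' hy' hne'
      rcases Finset.mem_insert.1 hy with h | h
      · rcases Finset.mem_insert.1 hy' with h' | h'
        · exact absurd (h.trans h'.symm) hne'
        · rw [h]; exact hkey y' h'
      · rcases Finset.mem_insert.1 hy' with h' | h'
        · rw [h']
          intro hb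
          apply hkey y h
          rw [mem_box] at hb ⊢
          have e1 : (y - t).1 = y.1 - t.1 := rfl
          have e2 : (y - t).2 = y.2 - t.2 := rfl
          have e3 : (t - y).1 = t.1 - y.1 := rfl
          have e4 : (t - y).2 = t.2 - y.2 := rfl
          rw [e1, e2] at hb
          rw [e3, e4]
          omega
        · exact hsep y h y' h' hne'
    have := hmax _ hnew
    rw [Finset.card_insert_of_notMem htS] at this
    omega
  calc T.card ≤ (S.biUnion (fun s => bx s r)).card := Finset.card_le_card hcov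
    _ ≤ ∑ s ∈ S, (bx s r).card := Finset.card_biUnion_le
    _ = (2 * r + 1) ^ 2 * S.card := by
        rw [Finset.sum_congr rfl (fun s _ => card_bx s r), Finset.sum_const, smul_eq_mul, mul_comm]

theorem geo_sum (n : ℕ) : ∑ k ∈ Finset.range n, (8 : ℝ) ^ k * (1 / 104) ^ (k + 1) ≤ 1 / 96 := by
  have h1 : ∀ m : ℕ, ∑ k ∈ Finset.range m, (8 : ℝ) ^ k * (1 / 104) ^ (k + 1) =
      1 / 96 - 1 / 96 * (8 / 104) ^ m := by
    intro m
    induction m with
    | zero => simp
    | succ m ih =>
      rw [Finset.sum_range_succ, ih]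
      have h2 : (8 : ℝ) ^ m * (1 / 104) ^ (m + 1) = (8 / 104) ^ m * (1 / 104) := by
        rw [pow_succ, ← mul_assoc, ← mul_pow]
        norm_num
      rw [h2, pow_succ]
      ring
  rw [h1]
  have : (0 : ℝ) ≤ 1 / 96 * (8 / 104) ^ n := by positivity
  linarith

theorem pf_QPRC : Q_PRC := by
  classical
  refine ⟨32, by norm_num, ?_⟩
  intro r
  have hq1 : (1 / 104 : ℝ) ^ ((2 * r + 1) ^ 2) < 1 :=
    pow_lt_one₀ (by norm_num) (by norm_num) (by positivity)
  refine ⟨(1 / 104 : ℝ) ^ ((2 * r + 1) ^ 2), by positivity, hq1, 1, ?_⟩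
  intro n hn Ω _ P _ B hB hsep
  set St : Finset Site := hull 1 (box (2 * n)) \ box (2 * n) with hSt
  have hStbox : St ⊆ box (2 * n + 1) := by
    intro y hy
    obtain ⟨hy1, _⟩ := Finset.mem_sdiff.1 hy
    obtain ⟨v, hv, hyv⟩ := Finset.mem_biUnion.1 hy1
    rw [mem_box] at hv ⊢
    rw [mem_bx] at hyv
    push_cast at hv hyv ⊢
    omega
  have hStcard : St.card ≤ 16 * n + 8 := by
    have h1 : St ⊆ box (2 * n + 1) \ box (2 * n) := by
      intro y hy
      exact Finset.mem_sdiff.2 ⟨hStbox hy, (Finset.mem_sdiff.1 hy).2⟩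
    have h2 : box (2 * n) ⊆ box (2 * n + 1) := by
      intro y hy
      rw [mem_box] at hy ⊢
      push_cast at hy ⊢
      omega
    refine (Finset.card_le_card h1).trans ?_
    rw [Finset.card_sdiff_of_subset h2, card_box, card_box]
    have : (2 * (2 * n + 1) + 1) ^ 2 = (2 * (2 * n) + 1) ^ 2 + (16 * n + 8) := by ring
    rw [this]
    omega
  -- the events
  set A : List Site → Set Ω := fun l => ⋂ z ∈ l.toFinset, B z with hA
  have hAmem : ∀ (l : List Site) (ω : Ω), ω ∈ A l ↔ ∀ z ∈ l, ω ∈ B z := by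
    intro l ω
    simp only [hA, Set.mem_iInter, List.mem_toFinset]
  have hAmeas : ∀ l, MeasurableSet (A l) := fun l =>
    Finset.measurableSet_biInter _ (fun z _ => hB z)
  have hAP : ∀ k, ∀ l ∈ pth St k, P (A l) ≤ ENNReal.ofReal ((1 / 104 : ℝ) ^ (k + 1)) := by
    intro k l hl
    obtain ⟨_, hnd, hlen⟩ := pth_basic St k l hl
    obtain ⟨S, hST, hS1, hS2⟩ := exists_separated r l.toFinset
    have hcard : l.toFinset.card = k + 1 := by
      rw [List.toFinset_card_of_nodup hnd, hlen]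
    have h1 : P (A l) ≤ P (⋂ y ∈ S, B y) := by
      apply measure_mono
      exact Set.biInter_subset_biInter_left hST
    have h2 : (P (⋂ y ∈ S, B y)).toReal ≤ (1 / 104 : ℝ) ^ (k + 1) := by
      refine (hsep S hS1).trans ?_
      rw [← pow_mul]
      apply pow_le_pow_of_le_one (by norm_num) (by norm_num)
      rw [← hcard]; exact hS2
    refine h1.trans ?_
    rw [← ENNReal.ofReal_toReal (measure_ne_top P (⋂ y ∈ S, B y))]
    exact ENNReal.ofReal_le_ofReal h2
  -- the number of bad paths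
  set N : Ω → ℕ := fun ω => ∑ k ∈ Finset.range (n + 1),
    ((pth St k).filter (fun l => ∀ z ∈ l, ω ∈ B z)).card with hN
  set Y : Ω → ENNReal := fun ω => ∑ k ∈ Finset.range (n + 1), ∑ l ∈ pth St k,
    (A l).indicator 1 ω with hY
  have hYN : ∀ ω, Y ω = (N ω : ENNReal) := by
    intro ω
    simp only [hY, hN]
    push_cast
    refine Finset.sum_congr rfl fun k _ => ?_
    rw [Finset.card_filter]
    push_cast
    refine Finset.sum_congr rfl fun l _ => ?_
    by_cases h : ∀ z ∈ l, ω ∈ B z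
    · rw [if_pos h, Set.indicator_of_mem ((hAmem l ω).2 h), Pi.one_apply]
    · rw [if_neg h, Set.indicator_of_notMem (fun h' => h ((hAmem l ω).1 h'))]
  have hYm : Measurable Y := by
    apply Finset.measurable_fun_sum
    intro k _
    apply Finset.measurable_fun_sum
    intro l _
    exact measurable_one.indicator (hAmeas l)
  have hEY : ∫⁻ ω, Y ω ∂P ≤ ENNReal.ofReal ((n : ℝ) / 4) := by
    have h1 : ∫⁻ ω, Y ω ∂P = ∑ k ∈ Finset.range (n + 1), ∑ l ∈ pth St k, P (A l) := by
      simp only [hY]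
      rw [lintegral_finsetSum]
      · refine Finset.sum_congr rfl fun k _ => ?_
        rw [lintegral_finsetSum]
        · refine Finset.sum_congr rfl fun l _ => ?_
          exact lintegral_indicator_one (hAmeas l)
        · intro l _
          exact measurable_one.indicator (hAmeas l)
      · intro k _
        apply Finset.measurable_fun_sum
        intro l _
        exact measurable_one.indicator (hAmeas l)
    rw [h1]
    have h2 : ∀ k ∈ Finset.range (n + 1), ∑ l ∈ pth St k, P (A l) ≤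
        ENNReal.ofReal ((16 * n + 8 : ℝ) * ((8 : ℝ) ^ k * (1 / 104) ^ (k + 1))) := by
      intro k _
      calc ∑ l ∈ pth St k, P (A l)
          ≤ ∑ l ∈ pth St k, ENNReal.ofReal ((1 / 104 : ℝ) ^ (k + 1)) :=
            Finset.sum_le_sum (hAP k)
        _ = ((pth St k).card : ENNReal) * ENNReal.ofReal ((1 / 104 : ℝ) ^ (k + 1)) := by
            rw [Finset.sum_const, nsmul_eq_mul]
        _ ≤ ENNReal.ofReal ((16 * n + 8 : ℝ) * (8 : ℝ) ^ k) *
              ENNReal.ofReal ((1 / 104 : ℝ) ^ (k + 1)) := by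
            gcongr
            rw [← ENNReal.ofReal_natCast]
            apply ENNReal.ofReal_le_ofReal
            have h3 : (pth St k).card ≤ (16 * n + 8) * 8 ^ k :=
              (pth_card St k).trans (Nat.mul_le_mul_right _ hStcard)
            exact_mod_cast h3
        _ = ENNReal.ofReal ((16 * n + 8 : ℝ) * ((8 : ℝ) ^ k * (1 / 104) ^ (k + 1))) := by
            rw [← ENNReal.ofReal_mul (by positivity), mul_assoc]
    refine (Finset.sum_le_sum h2).trans ?_
    rw [← ENNReal.ofReal_sum_of_nonneg (fun k _ => by positivity)]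
    apply ENNReal.ofReal_le_ofReal
    rw [← Finset.mul_sum]
    have h4 := geo_sum (n + 1)
    have h5 : (16 * n + 8 : ℝ) ≤ 24 * n := by
      have : (1 : ℝ) ≤ n := by exact_mod_cast hn
      linarith
    calc (16 * n + 8 : ℝ) * ∑ k ∈ Finset.range (n + 1), (8 : ℝ) ^ k * (1 / 104) ^ (k + 1)
        ≤ (16 * n + 8 : ℝ) * (1 / 96) := mul_le_mul_of_nonneg_left h4 (by positivity)
      _ ≤ 24 * n * (1 / 96) := mul_le_mul_of_nonneg_right h5 (by norm_num)
      _ = (n : ℝ) / 4 := by ring
  have hmark : P {ω | ((n : ENNReal) + 1) ≤ Y ω} ≤ 1 / 4 := by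
    have h1 : ((n : ENNReal) + 1) * P {ω | ((n : ENNReal) + 1) ≤ Y ω} ≤ ∫⁻ ω, Y ω ∂P :=
      mul_meas_ge_le_lintegral hYm _
    have h2 : ((n : ENNReal) + 1) * P {ω | ((n : ENNReal) + 1) ≤ Y ω} ≤
        ((n : ENNReal) + 1) * (1 / 4) := by
      refine (h1.trans hEY).trans ?_
      have h3 : ((n : ENNReal) + 1) * (1 / 4) = ENNReal.ofReal (((n : ℝ) + 1) * (1 / 4)) := by
        rw [ENNReal.ofReal_mul (by positivity), ENNReal.ofReal_add (by positivity) zero_le_one,
          ENNReal.ofReal_natCast, ENNReal.ofReal_one, ENNReal.ofReal_div_of_pos (by norm_num),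
          ENNReal.ofReal_one]
        norm_num
      rw [h3]
      apply ENNReal.ofReal_le_ofReal
      have : (0 : ℝ) ≤ n := Nat.cast_nonneg n
      linarith
    have h4 : ((n : ENNReal) + 1) ≠ 0 := by
      intro h
      have := (add_eq_zero.1 h).2
      exact one_ne_zero this
    have h5 : ((n : ENNReal) + 1) ≠ ⊤ :=
      ENNReal.add_ne_top.2 ⟨ENNReal.natCast_ne_top n, ENNReal.one_ne_top⟩
    exact (ENNReal.mul_le_mul_iff_right h4 h5).1 h2
  -- good event
  have hgood : {ω | ((n : ENNReal) + 1) ≤ Y ω}ᶜ ⊆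
      {ω | ∃ 𝒱 : Finset Site, box (2 * n) ⊆ 𝒱 ∧ 𝒱 ⊆ box (4 * n) ∧
      (∀ y ∈ bdy 𝒱, ω ∉ B y) ∧ ((bdy 𝒱).card : ℝ) ≤ 32 * n} := by
    intro ω hω
    have hNn : N ω ≤ n := by
      have h1 : ¬ ((n : ENNReal) + 1) ≤ Y ω := hω
      rw [hYN ω] at h1
      by_contra h2
      push Not at h2
      apply h1
      have : ((n + 1 : ℕ) : ENNReal) ≤ (N ω : ENNReal) := by exact_mod_cast h2
      push_cast at this
      exact this
    set W : Finset Site := (Finset.range (n + 1)).biUnion (fun k =>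
      ((pth St k).filter (fun l => ∀ z ∈ l, ω ∈ B z)).image (fun l => l.headD (0, 0))) with hW
    have hWcard : W.card ≤ n := by
      refine le_trans ?_ hNn
      refine Finset.card_biUnion_le.trans ?_
      exact Finset.sum_le_sum fun k _ => Finset.card_image_le
    have hWmem : ∀ (k : ℕ) (l : List Site), k < n + 1 → l ∈ pth St k → (∀ z ∈ l, ω ∈ B z) →
        ∀ z ∈ l, z ∈ W := by
      intro k l hk hl hbad z hz
      obtain ⟨j, hj, l', hl', hsub, hhead⟩ := pth_suffix St k l hl z hz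
      refine Finset.mem_biUnion.2 ⟨j, Finset.mem_range.2 (by omega), ?_⟩
      exact Finset.mem_image.2 ⟨l', Finset.mem_filter.2 ⟨hl', fun w hw => hbad w (hsub w hw)⟩,
        hhead⟩
    have hlen : ∀ (k : ℕ) (l : List Site), k < n + 1 → l ∈ pth St k → (∀ z ∈ l, ω ∈ B z) →
        k + 1 ≤ n := by
      intro k l hk hl hbad
      obtain ⟨_, hnd, hl2⟩ := pth_basic St k l hl
      have h1 : l.toFinset ⊆ W := fun z hz =>
        hWmem k l hk hl hbad z (List.mem_toFinset.1 hz)
      have h2 := (Finset.card_le_card h1).trans hWcard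
      rw [List.toFinset_card_of_nodup hnd, hl2] at h2
      exact h2
    have hWinv : ∀ v ∈ W, ∃ k l, k < n + 1 ∧ l ∈ pth St k ∧ (∀ z ∈ l, ω ∈ B z) ∧
        l.headD (0, 0) = v := by
      intro v hv
      obtain ⟨k, hk, hv⟩ := Finset.mem_biUnion.1 hv
      obtain ⟨l, hl, hlv⟩ := Finset.mem_image.1 hv
      obtain ⟨hl1, hl2⟩ := Finset.mem_filter.1 hl
      exact ⟨k, l, Finset.mem_range.1 hk, hl1, hl2, hlv⟩
    refine ⟨box (2 * n) ∪ W, Finset.subset_union_left, ?_, ?_, ?_⟩
    · intro y hy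
      rcases Finset.mem_union.1 hy with h | h
      · rw [mem_box] at h ⊢
        push_cast at h ⊢
        omega
      · obtain ⟨k, l, hk, hl, hbad, hhead⟩ := hWinv y h
        have h1 := hlen k l hk hl hbad
        have h2 := pth_box (2 * n + 1) St hStbox k l hl
        rw [hhead] at h2
        rw [mem_box] at h2 ⊢
        push_cast at h2 ⊢
        omega
    · intro y hy hyB
      obtain ⟨hy1, hy2⟩ := Finset.mem_sdiff.1 hy
      rw [Finset.mem_union, not_or] at hy2
      obtain ⟨v, hv, hyv⟩ := Finset.mem_biUnion.1 hy1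
      rcases Finset.mem_union.1 hv with h | h
      · have hySt : y ∈ St :=
          Finset.mem_sdiff.2 ⟨Finset.mem_biUnion.2 ⟨v, h, hyv⟩, hy2.1⟩
        have h0 : [y] ∈ pth St 0 := Finset.mem_image.2 ⟨y, hySt, rfl⟩
        exact hy2.2 (hWmem 0 [y] (by omega) h0 (fun z hz => by
          rw [List.mem_singleton.1 hz]; exact hyB) y (List.mem_singleton.2 rfl))
      · obtain ⟨k, l, hk, hl, hbad, hhead⟩ := hWinv v h
        have h1 := hlen k l hk hl hbad
        by_cases hyl : y ∈ l
        · exact hy2.2 (hWmem k l hk hl hbad y hyl)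
        · have h2 : y :: l ∈ pth St (k + 1) := by
            refine Finset.mem_biUnion.2 ⟨l, hl, Finset.mem_image.2 ⟨y, ?_, rfl⟩⟩
            exact Finset.mem_filter.2 ⟨by rw [hhead]; exact hyv, hyl⟩
          exact hy2.2 (hWmem (k + 1) (y :: l) (by omega) h2 (fun z hz => by
            rcases List.mem_cons.1 hz with h3 | h3
            · rw [h3]; exact hyB
            · exact hbad z h3) y (List.mem_cons_self))
    · have hsub : bdy (box (2 * n) ∪ W) ⊆ St ∪ W.biUnion (fun v => (bx v 1).erase v) := by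
        intro y hy
        obtain ⟨hy1, hy2⟩ := Finset.mem_sdiff.1 hy
        rw [Finset.mem_union, not_or] at hy2
        obtain ⟨v, hv, hyv⟩ := Finset.mem_biUnion.1 hy1
        rcases Finset.mem_union.1 hv with h | h
        · exact Finset.mem_union_left _
            (Finset.mem_sdiff.2 ⟨Finset.mem_biUnion.2 ⟨v, h, hyv⟩, hy2.1⟩)
        · refine Finset.mem_union_right _ (Finset.mem_biUnion.2 ⟨v, h, ?_⟩)
          refine Finset.mem_erase.2 ⟨?_, hyv⟩
          intro hyv'
          rw [hyv'] at hy2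
          exact hy2.2 h
      have h1 : (bdy (box (2 * n) ∪ W)).card ≤ 16 * n + 8 + n * 8 := by
        refine (Finset.card_le_card hsub).trans ?_
        refine (Finset.card_union_le _ _).trans ?_
        refine Nat.add_le_add hStcard ?_
        refine Finset.card_biUnion_le.trans ?_
        have h2 : ∀ v ∈ W, ((bx v 1).erase v).card = 8 := by
          intro v _
          rw [Finset.card_erase_of_mem (mem_bx_self v 1), card_bx]
          norm_num
        rw [Finset.sum_congr rfl h2, Finset.sum_const, smul_eq_mul]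
        exact Nat.mul_le_mul_right 8 hWcard
      have h3 : (bdy (box (2 * n) ∪ W)).card ≤ 32 * n := by omega
      exact_mod_cast h3
  have hmeas : MeasurableSet {ω | ((n : ENNReal) + 1) ≤ Y ω} := measurableSet_le measurable_const hYm
  have hfin : P {ω | ∃ 𝒱 : Finset Site, box (2 * n) ⊆ 𝒱 ∧ 𝒱 ⊆ box (4 * n) ∧
      (∀ y ∈ bdy 𝒱, ω ∉ B y) ∧ ((bdy 𝒱).card : ℝ) ≤ 32 * n} ≠ ⊤ := measure_ne_top P _
  have h1 : P {ω | ((n : ENNReal) + 1) ≤ Y ω}ᶜ ≤ P {ω | ∃ 𝒱 : Finset Site,
      box (2 * n) ⊆ 𝒱 ∧ 𝒱 ⊆ box (4 * n) ∧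
      (∀ y ∈ bdy 𝒱, ω ∉ B y) ∧ ((bdy 𝒱).card : ℝ) ≤ 32 * n} := measure_mono hgood
  have h2 : (P {ω | ((n : ENNReal) + 1) ≤ Y ω}ᶜ).toReal =
      1 - (P {ω | ((n : ENNReal) + 1) ≤ Y ω}).toReal := by
    have := prob_compl_eq_one_sub (μ := P) hmeas
    rw [this, ENNReal.toReal_sub_of_le prob_le_one ENNReal.one_ne_top, ENNReal.toReal_one]
  have h3 : (P {ω | ((n : ENNReal) + 1) ≤ Y ω}).toReal ≤ 1 / 4 := by
    have h4 := ENNReal.toReal_mono (by norm_num) hmark
    have h5 : (1 / 4 : ENNReal).toReal = 1 / 4 := by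
      rw [ENNReal.toReal_div]; norm_num
    rw [h5] at h4
    exact h4
  have h6 := ENNReal.toReal_mono hfin h1
  rw [h2] at h6
  linarith

end Pool.Agent.H2.RFZ
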