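import Pool.Agent.H98.RFZ.Targets3

/-!
# rfz_modules row QTEN (helper2): the tension through a coarse cut
-/

set_option autoImplicit false

open MeasureTheory

namespace Pool.Agent.H2.RFZ

open Pool.Agent.H98.RFC Pool.Agent.H98.RFZ

namespace Ten

theorem mem_bx {y v : Site} {r : ℕ} :
    y ∈ bx v r ↔ (v.1 - r ≤ y.1 ∧ y.1 ≤ v.1 + r) ∧ (v.2 - r ≤ y.2 ∧ y.2 ≤ v.2 + r) := by
  unfold bx
  rw [Finset.mem_product, Finset.mem_Icc, Finset.mem_Icc]

theorem mem_box {y : Site} {r : ℕ} :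
    y ∈ box r ↔ (-(r : ℤ) ≤ y.1 ∧ y.1 ≤ r) ∧ (-(r : ℤ) ≤ y.2 ∧ y.2 ≤ r) := by
  unfold box
  rw [Finset.mem_product, Finset.mem_Icc, Finset.mem_Icc]

theorem mem_hull {R : ℕ} {S : Finset Site} {b : Site} :
    b ∈ hull R S ↔ ∃ a ∈ S, b ∈ bx a R := by
  unfold hull
  rw [Finset.mem_biUnion]

theorem mem_eb {z x : Site} {r : ℕ} :
    x ∈ eb z r ↔ x ∈ bx z r ∧ nsq (x - z) ≤ (r : ℤ) ^ 2 := by
  unfold eb
  rw [Finset.mem_filter]

/-- A cut bond of `U` is a cut bond of one of the sets `Uy y`. -/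
theorem cap_le_sum (R : ℕ) (J : Site → ℝ) (hJ : ∀ z, 0 ≤ J z) (D : Set Site) (U : Finset Site)
    (s : Finset Site) (Dy : Site → Set Site) (Uy : Site → Finset Site)
    (H : ∀ a ∈ U, ∀ b ∈ hull R U \ U, a ∈ D → b ∈ D → J (a - b) ≠ 0 →
      ∃ y ∈ s, a ∈ Uy y ∧ b ∈ hull R (Uy y) \ Uy y ∧ a ∈ Dy y ∧ b ∈ Dy y) :
    cap R J D U ≤ ∑ y ∈ s, cap R J (Dy y) (Uy y) := by
  classical
  have key : ∀ (D : Set Site) (U : Finset Site), cap R J D U =
      ∑ p ∈ U ×ˢ (hull R U \ U), (if p.1 ∈ D ∧ p.2 ∈ D then J (p.1 - p.2) else 0) := by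
    intro D U
    unfold cap
    rw [Finset.sum_product]
  have hnn : ∀ (D : Set Site) (p : Site × Site),
      0 ≤ (if p.1 ∈ D ∧ p.2 ∈ D then J (p.1 - p.2) else 0) := by
    intro D p
    split_ifs
    · exact hJ _
    · exact le_rfl
  rw [key]
  have h1 : ∀ p ∈ U ×ˢ (hull R U \ U), (if p.1 ∈ D ∧ p.2 ∈ D then J (p.1 - p.2) else 0) ≤
      ∑ y ∈ s, (if p ∈ Uy y ×ˢ (hull R (Uy y) \ Uy y) then
        (if p.1 ∈ Dy y ∧ p.2 ∈ Dy y then J (p.1 - p.2) else 0) else 0) := by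
    intro p hp
    rw [Finset.mem_product] at hp
    have hnn2 : ∀ y ∈ s, 0 ≤ (if p ∈ Uy y ×ˢ (hull R (Uy y) \ Uy y) then
        (if p.1 ∈ Dy y ∧ p.2 ∈ Dy y then J (p.1 - p.2) else 0) else 0) := by
      intro y _
      by_cases h : p ∈ Uy y ×ˢ (hull R (Uy y) \ Uy y)
      · rw [if_pos h]; exact hnn _ _
      · rw [if_neg h]
    by_cases hD : p.1 ∈ D ∧ p.2 ∈ D
    · rw [if_pos hD]
      by_cases hJ0 : J (p.1 - p.2) = 0
      · rw [hJ0]
        rw [hJ0] at hnn2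
        exact Finset.sum_nonneg hnn2
      · obtain ⟨y, hy, ha, hb, ha', hb'⟩ := H p.1 hp.1 p.2 hp.2 hD.1 hD.2 hJ0
        refine le_trans (le_of_eq ?_) (Finset.single_le_sum hnn2 hy)
        rw [if_pos (Finset.mem_product.2 ⟨ha, hb⟩), if_pos ⟨ha', hb'⟩]
    · rw [if_neg hD]
      exact Finset.sum_nonneg hnn2
  refine (Finset.sum_le_sum h1).trans ?_
  rw [Finset.sum_comm]
  refine Finset.sum_le_sum (fun y _ => ?_)
  rw [key, ← Finset.sum_filter]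
  refine Finset.sum_le_sum_of_subset_of_nonneg ?_ (fun p _ _ => hnn _ _)
  intro p hp
  exact (Finset.mem_filter.1 hp).2

theorem div_bd (u x : ℤ) (hu : 0 < u) : u * (x / u) ≤ x ∧ x < u * (x / u) + u := by
  have e1 := Int.mul_ediv_add_emod x u
  have e2 := Int.emod_nonneg x hu.ne'
  have e3 := Int.emod_lt_of_pos x hu
  exact ⟨by linarith, by linarith⟩

theorem div_near (u p q : ℤ) (hu : 0 < u) (h : q ≤ p + u) : q / u ≤ p / u + 1 := by
  obtain ⟨a1, a2⟩ := div_bd u p hu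
  obtain ⟨b1, b2⟩ := div_bd u q hu
  by_contra hcon
  push Not at hcon
  have h1 : p / u + 2 ≤ q / u := by omega
  have h2 : u * (p / u + 2) ≤ u * (q / u) := mul_le_mul_of_nonneg_left h1 hu.le
  linarith

theorem div_in (u n x : ℤ) (hu : 0 < u) (hn : 0 ≤ n) (h1 : -(n * u) ≤ x) (h2 : x ≤ n * u) :
    -(2 * n) ≤ x / u ∧ x / u ≤ 2 * n := by
  have e1 : x / u ≤ (n * u) / u := Int.ediv_le_ediv hu h2
  rw [Int.mul_ediv_cancel _ hu.ne'] at e1
  have e2 : (-n * u) / u ≤ x / u := Int.ediv_le_ediv hu (by linarith)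
  rw [Int.mul_ediv_cancel _ hu.ne'] at e2
  exact ⟨by linarith, by linarith⟩

theorem sq_close (A B z u R : ℤ) (h1 : z - 10 * u ≤ A) (h2 : A ≤ z + 10 * u) (h3 : -R ≤ A - B)
    (h4 : A - B ≤ R) :
    (B - z) ^ 2 ≤ (A - z) ^ 2 + 2 * (10 * u * R) + R ^ 2 := by
  have w1 : (B - z) ^ 2 = (A - z) ^ 2 + 2 * ((A - z) * (B - A)) + (B - A) ^ 2 := by ring
  have z1 : |A - z| ≤ 10 * u := abs_le.2 ⟨by linarith, by linarith⟩
  have z2 : |B - A| ≤ R := abs_le.2 ⟨by linarith, by linarith⟩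
  have w2 : (A - z) * (B - A) ≤ 10 * u * R := by
    calc (A - z) * (B - A) ≤ |(A - z) * (B - A)| := le_abs_self _
      _ = |A - z| * |B - A| := abs_mul _ _
      _ ≤ 10 * u * R := mul_le_mul z1 z2 (abs_nonneg _) (by linarith)
  have w3 : (B - A) ^ 2 ≤ R ^ 2 := sq_le_sq' (by linarith) (by linarith)
  rw [w1]; linarith

theorem nsq_close (a b z : Site) (u R C : ℤ) (p1 : z.1 - 10 * u ≤ a.1) (p2 : a.1 ≤ z.1 + 10 * u)
    (p3 : z.2 - 10 * u ≤ a.2) (p4 : a.2 ≤ z.2 + 10 * u) (r1 : -R ≤ a.1 - b.1)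
    (r2 : a.1 - b.1 ≤ R) (r3 : -R ≤ a.2 - b.2) (r4 : a.2 - b.2 ≤ R) (_hR : 0 ≤ R)
    (hu : 10 * R + 10 ≤ u) (hC : 12 ≤ C) (p5 : nsq (a - z) ≤ (10 * u) ^ 2) :
    nsq (b - z) ≤ (C * u) ^ 2 := by
  have hC2 : ((12 : ℤ) * u) ^ 2 ≤ (C * u) ^ 2 :=
    pow_le_pow_left₀ (by linarith) (mul_le_mul_of_nonneg_right hC (by linarith)) 2
  refine le_trans ?_ hC2
  unfold nsq at p5 ⊢
  rw [Prod.fst_sub, Prod.snd_sub] at p5 ⊢
  have q1 := sq_close a.1 b.1 z.1 u R p1 p2 r1 r2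
  have q2 := sq_close a.2 b.2 z.2 u R p3 p4 r3 r4
  have q3 : 10 * R ≤ u := by linarith
  have q4 : 10 * (u * R) ≤ u ^ 2 := by nlinarith
  have q5 : R ^ 2 ≤ u ^ 2 := by nlinarith
  nlinarith

theorem near_in (u n k y x : ℤ) (hu : 0 < u) (hk : k ≤ 4 * n - 1) (b1 : -(4 * n + 1) ≤ y)
    (b2 : y ≤ 4 * n + 1) (x1 : u * y - k * u ≤ x) (x2 : x ≤ u * y + k * u) :
    -(8 * (n * u)) ≤ x ∧ x ≤ 8 * (n * u) := by
  have h1 : k * u ≤ (4 * n - 1) * u := mul_le_mul_of_nonneg_right hk hu.le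
  have h2 : u * (-(4 * n + 1)) ≤ u * y := mul_le_mul_of_nonneg_left b1 hu.le
  have h3 : u * y ≤ u * (4 * n + 1) := mul_le_mul_of_nonneg_left b2 hu.le
  exact ⟨by linarith, by linarith⟩

theorem far_lo (u n k y x : ℤ) (hu : 0 < u) (hk : k ≤ n) (b : y ≤ -(2 * n + 1))
    (x2 : x ≤ u * y + k * u) : ¬ -(n * u) ≤ x := by
  have h1 : k * u ≤ n * u := mul_le_mul_of_nonneg_right hk hu.le
  have h2 : u * y ≤ u * (-(2 * n + 1)) := mul_le_mul_of_nonneg_left b hu.le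
  intro h; linarith

theorem far_hi (u n k y x : ℤ) (hu : 0 < u) (hk : k ≤ n) (b : 2 * n + 1 ≤ y)
    (x2 : u * y - k * u ≤ x) : ¬ x ≤ n * u := by
  have h1 : k * u ≤ n * u := mul_le_mul_of_nonneg_right hk hu.le
  have h2 : u * (2 * n + 1) ≤ u * y := mul_le_mul_of_nonneg_left b hu.le
  intro h; linarith

theorem cell_in (u n q x : ℤ) (hu : 0 < u) (hn : 1 ≤ n) (b1 : -(4 * n) ≤ q)
    (b2 : q ≤ 4 * n) (x1 : u * q ≤ x) (x2 : x < u * q + u) :
    -(8 * (n * u)) ≤ x ∧ x ≤ 8 * (n * u) := by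
  have h2 : u * (-(4 * n)) ≤ u * q := mul_le_mul_of_nonneg_left b1 hu.le
  have h3 : u * q ≤ u * (4 * n) := mul_le_mul_of_nonneg_left b2 hu.le
  have h4 : 1 * u ≤ n * u := mul_le_mul_of_nonneg_right hn hu.le
  exact ⟨by linarith, by linarith⟩

theorem sq_small (z x u : ℤ) (h1 : z ≤ x) (h2 : x < z + u) : (x - z) ^ 2 ≤ u ^ 2 :=
  pow_le_pow_left₀ (by linarith) (by linarith) 2

theorem small_ball (z x : Site) (u k : ℤ) (hu : 0 ≤ u) (hk : 5 ≤ k)
    (hx1 : z.1 ≤ x.1 ∧ x.1 < z.1 + u) (hx2 : z.2 ≤ x.2 ∧ x.2 < z.2 + u) :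
    ((z.1 - k * u ≤ x.1 ∧ x.1 ≤ z.1 + k * u) ∧ (z.2 - k * u ≤ x.2 ∧ x.2 ≤ z.2 + k * u)) ∧
      nsq (x - z) ≤ (k * u) ^ 2 := by
  have hku : 5 * u ≤ k * u := mul_le_mul_of_nonneg_right hk hu
  refine ⟨⟨⟨by linarith [hx1.1], by linarith [hx1.2]⟩,
    ⟨by linarith [hx2.1], by linarith [hx2.2]⟩⟩, ?_⟩
  unfold nsq
  rw [Prod.fst_sub, Prod.snd_sub]
  have e5 := sq_small z.1 x.1 u hx1.1 hx1.2
  have e6 := sq_small z.2 x.2 u hx2.1 hx2.2
  have e7 : (5 * u) ^ 2 ≤ (k * u) ^ 2 := pow_le_pow_left₀ (by linarith) hku 2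
  nlinarith [sq_nonneg u]

end Ten

open Ten

theorem pf_QTEN (h1 : Z_CUT) (h2 : Z_DM) : Q_TEN := by
  classical
  intro R J hJ h u n C c 𝒱 hu hC hn hV1 hV2 hc
  -- the optimal local cuts
  have hopt : ∀ z : Site, ∃ W : Finset Site, (eb z (5 * u) ⊆ W ∨ W = eb z (10 * u)) ∧
      W ⊆ eb z (10 * u) ∧ cz R J h u C z = cap R J ↑(Ds R J h (eb z (C * u))) W := by
    intro z
    obtain ⟨W, hW, hW2⟩ := Finset.exists_mem_eq_inf'
      (s := (eb z (10 * u)).powerset.filter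
        (fun U => eb z (5 * u) ⊆ U ∨ U = eb z (10 * u)))
      ⟨eb z (10 * u), by simp⟩ (fun U => cap R J ↑(Ds R J h (eb z (C * u))) U)
    rw [Finset.mem_filter, Finset.mem_powerset] at hW
    exact ⟨W, hW.2, hW.1, hW2⟩
  choose W hWa hWb hWc using hopt
  have hu10 : (10 : ℤ) ≤ u := by exact_mod_cast (by omega : 10 ≤ u)
  have huR : (10 : ℤ) * R + 10 ≤ u := by exact_mod_cast hu
  have hR0 : (0 : ℤ) ≤ R := Int.natCast_nonneg _
  have hn14 : (14 : ℤ) ≤ n := by exact_mod_cast (by omega : 14 ≤ n)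
  have hCn : (C : ℤ) + 2 ≤ n := by exact_mod_cast hn
  have hC12 : (12 : ℤ) ≤ C := by exact_mod_cast hC
  -- small balls
  have hball : ∀ z x : Site, (z.1 ≤ x.1 ∧ x.1 < z.1 + u) → (z.2 ≤ x.2 ∧ x.2 < z.2 + u) →
      x ∈ W z := by
    intro z x hx1 hx2
    have hgen : ∀ k : ℕ, 5 ≤ k → x ∈ eb z (k * u) := by
      intro k hk
      have hk' : (5 : ℤ) ≤ k := by exact_mod_cast hk
      rw [mem_eb, mem_bx]
      push_cast
      exact small_ball z x u k (by linarith) hk' hx1 hx2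
    rcases hWa z with h | h
    · exact h (hgen 5 le_rfl)
    · rw [h]; exact hgen 10 (by norm_num)
  -- the cut
  set Λ : Finset Site := box (8 * (n * u)) with hΛ
  set V : Finset Site := box (n * u) with hV
  have hcell : ∀ x : Site, (sm u ((x.1 / u, x.2 / u) : Site)).1 ≤ x.1 ∧
      x.1 < (sm u ((x.1 / u, x.2 / u) : Site)).1 + u ∧
      (sm u ((x.1 / u, x.2 / u) : Site)).2 ≤ x.2 ∧
      x.2 < (sm u ((x.1 / u, x.2 / u) : Site)).2 + u := by
    intro x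
    have e := div_bd u x.1 (by linarith)
    have f := div_bd u x.2 (by linarith)
    exact ⟨e.1, e.2, f.1, f.2⟩
  set U : Finset Site := Λ.filter (fun x => ((x.1 / u, x.2 / u) : Site) ∈ 𝒱 ∨
    ∃ y ∈ bdy 𝒱, x ∈ W (sm u y)) with hU
  have hUΛ : U ⊆ Λ := Finset.filter_subset _ _
  have hVU : V ⊆ U := by
    intro x hx
    rw [hV, mem_box] at hx
    push_cast at hx
    rw [hU, Finset.mem_filter, hΛ, mem_box]
    push_cast
    have hnu : (0 : ℤ) ≤ (n : ℤ) * u := by positivity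
    refine ⟨⟨⟨by linarith [hx.1.1], by linarith [hx.1.2]⟩,
      ⟨by linarith [hx.2.1], by linarith [hx.2.2]⟩⟩, Or.inl (hV1 ?_)⟩
    rw [mem_box]
    push_cast
    exact ⟨div_in u n x.1 (by linarith) (by linarith) (by linarith [hx.1.1]) hx.1.2,
      div_in u n x.2 (by linarith) (by linarith) (by linarith [hx.2.1]) hx.2.2⟩
  -- positions of the boundary cells
  have hbd : ∀ y ∈ bdy 𝒱, (-(4 * (n : ℤ) + 1) ≤ y.1 ∧ y.1 ≤ 4 * n + 1) ∧
      (-(4 * (n : ℤ) + 1) ≤ y.2 ∧ y.2 ≤ 4 * n + 1) ∧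
      (y.1 ≤ -(2 * (n : ℤ) + 1) ∨ 2 * (n : ℤ) + 1 ≤ y.1 ∨ y.2 ≤ -(2 * (n : ℤ) + 1) ∨
        2 * (n : ℤ) + 1 ≤ y.2) := by
    intro y hy
    unfold bdy at hy
    rw [Finset.mem_sdiff, mem_hull] at hy
    obtain ⟨⟨a, ha, hya⟩, hy2⟩ := hy
    have ha' := hV2 ha
    rw [mem_box] at ha'
    rw [mem_bx] at hya
    push_cast at ha' hya
    have hy3 : y ∉ box (2 * n) := fun h => hy2 (hV1 h)
    rw [mem_box] at hy3
    push_cast at hy3
    omega
  -- a point close to a boundary cell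
  have hpos : ∀ y ∈ bdy 𝒱, ∀ x : Site, ∀ k : ℤ, 0 ≤ k → k ≤ n → k ≤ 4 * n - 1 →
      (((sm u y).1 - k * u ≤ x.1 ∧ x.1 ≤ (sm u y).1 + k * u) ∧
        ((sm u y).2 - k * u ≤ x.2 ∧ x.2 ≤ (sm u y).2 + k * u)) → x ∈ Λ ∧ x ∉ V := by
    intro y hy x k hk0 hkn hk4 hx
    obtain ⟨⟨b1, b2⟩, ⟨b3, b4⟩, b5⟩ := hbd y hy
    unfold sm at hx
    simp only at hx
    obtain ⟨⟨x1, x2⟩, ⟨x3, x4⟩⟩ := hx
    have hu0 : (0 : ℤ) < u := by linarith
    constructor
    · rw [hΛ, mem_box]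
      push_cast
      exact ⟨near_in u n k y.1 x.1 hu0 hk4 b1 b2 x1 x2, near_in u n k y.2 x.2 hu0 hk4 b3 b4 x3 x4⟩
    · intro hxV
      rw [hV, mem_box] at hxV
      push_cast at hxV
      obtain ⟨⟨v1, v2⟩, ⟨v3, v4⟩⟩ := hxV
      rcases b5 with b | b | b | b
      · exact far_lo u n k y.1 x.1 hu0 hkn b x2 v1
      · exact far_hi u n k y.1 x.1 hu0 hkn b x1 v2
      · exact far_lo u n k y.2 x.2 hu0 hkn b x4 v3
      · exact far_hi u n k y.2 x.2 hu0 hkn b x3 v4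
  -- points of the small cut are close
  have hWpos : ∀ z x : Site, x ∈ W z →
      ((z.1 - 10 * u ≤ x.1 ∧ x.1 ≤ z.1 + 10 * u) ∧ (z.2 - 10 * u ≤ x.2 ∧ x.2 ≤ z.2 + 10 * u)) ∧
      nsq (x - z) ≤ (10 * (u : ℤ)) ^ 2 := by
    intro z x hx
    have := hWb z hx
    rw [mem_eb, mem_bx] at this
    push_cast at this
    exact this
  have hcut := h1 R J hJ h V U Λ hVU hUΛ
  refine hcut.trans (mul_le_mul_of_nonneg_left ?_ (by norm_num))
  have hsum := cap_le_sum R J hJ.nonneg (↑V ∪ ↑(Ds R J h (Λ \ V)) ∪ (↑Λ)ᶜ) U (bdy 𝒱)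
    (fun y => (↑(Ds R J h (eb (sm u y) (C * u))) : Set Site)) (fun y => W (sm u y)) ?_
  · refine hsum.trans ?_
    have : ∑ y ∈ bdy 𝒱, cap R J (↑(Ds R J h (eb (sm u y) (C * u)))) (W (sm u y)) ≤
        ∑ y ∈ bdy 𝒱, c := by
      refine Finset.sum_le_sum (fun y hy => ?_)
      rw [← hWc]
      exact hc y hy
    refine this.trans (le_of_eq ?_)
    rw [Finset.sum_const, nsmul_eq_mul, mul_comm]
  · intro a ha b hb haD hbD hJab
    rw [hU, Finset.mem_filter] at ha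
    rw [Finset.mem_sdiff] at hb
    obtain ⟨haΛ, ha⟩ := ha
    -- the bond is short
    have hab : a - b ∈ box R := by
      by_contra hcon
      exact hJab (hJ.range _ hcon)
    rw [mem_box, Prod.fst_sub, Prod.snd_sub] at hab
    obtain ⟨⟨r1, r2⟩, ⟨r3, r4⟩⟩ := hab
    -- `b` is in the large box as soon as it is in a local set
    have hbnot : ∀ y ∈ bdy 𝒱, b ∉ W (sm u y) := by
      intro y hy hbW
      apply hb.2
      rw [hU, Finset.mem_filter]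
      obtain ⟨hp, _⟩ := hWpos _ _ hbW
      exact ⟨(hpos y hy b 10 (by norm_num) (by linarith) (by linarith) hp).1,
        Or.inr ⟨y, hy, hbW⟩⟩
    have hfar : ∀ y ∈ bdy 𝒱, a ∈ W (sm u y) →
        ∃ y ∈ bdy 𝒱, a ∈ W (sm u y) ∧ b ∈ hull R (W (sm u y)) \ W (sm u y) ∧
          a ∈ (↑(Ds R J h (eb (sm u y) (C * u))) : Set Site) ∧
          b ∈ (↑(Ds R J h (eb (sm u y) (C * u))) : Set Site) := by
      intro y hy haW
      obtain ⟨⟨⟨p1, p2⟩, ⟨p3, p4⟩⟩, p5⟩ := hWpos _ _ haW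
      refine ⟨y, hy, haW, Finset.mem_sdiff.2 ⟨mem_hull.2 ⟨a, haW, ?_⟩, hbnot y hy⟩, ?_⟩
      · rw [mem_bx]
        refine ⟨⟨by linarith, by linarith⟩, ⟨by linarith, by linarith⟩⟩
      · obtain ⟨haΛ', haV'⟩ := hpos y hy a 10 (by norm_num) (by linarith) (by linarith)
          ⟨⟨p1, p2⟩, ⟨p3, p4⟩⟩
        obtain ⟨hbΛ', hbV'⟩ := hpos y hy b 11 (by norm_num) (by linarith) (by linarith)
          ⟨⟨by linarith, by linarith⟩, ⟨by linarith, by linarith⟩⟩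
        have haE : a ∈ eb (sm u y) (C * u) := by
          have hCu : (10 : ℤ) * u ≤ (C : ℤ) * u := by nlinarith
          rw [mem_eb, mem_bx]
          push_cast
          refine ⟨⟨⟨by linarith, by linarith⟩, ⟨by linarith, by linarith⟩⟩, ?_⟩
          refine p5.trans ?_
          nlinarith
        have hbE : b ∈ eb (sm u y) (C * u) := by
          have hCu : (12 : ℤ) * u ≤ (C : ℤ) * u := by nlinarith
          rw [mem_eb, mem_bx]
          push_cast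
          refine ⟨⟨⟨by linarith, by linarith⟩, ⟨by linarith, by linarith⟩⟩, ?_⟩
          exact nsq_close a b (sm u y) u R C p1 p2 p3 p4 r1 r2 r3 r4 hR0 huR hC12 p5
        have hsubE : eb (sm u y) (C * u) ⊆ Λ \ V := by
          intro x hx
          rw [mem_eb, mem_bx] at hx
          push_cast at hx
          obtain ⟨f1, f2⟩ := hpos y hy x C (by linarith) (by linarith) (by linarith) hx.1
          exact Finset.mem_sdiff.2 ⟨f1, f2⟩
        have hDM := h2 R J hJ h (eb (sm u y) (C * u)) (Λ \ V) hsubE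
        have hDs : ∀ x : Site, x ∈ Λ → x ∉ V → x ∈ eb (sm u y) (C * u) →
            x ∈ (↑V ∪ ↑(Ds R J h (Λ \ V)) ∪ (↑Λ)ᶜ : Set Site) →
            x ∈ (↑(Ds R J h (eb (sm u y) (C * u))) : Set Site) := by
          intro x hx1 hx2 hx3 hx4
          rcases hx4 with (hx4 | hx4) | hx4
          · exact absurd (Finset.mem_coe.1 hx4) hx2
          · exact Finset.mem_coe.2 (hDM (Finset.mem_inter.2 ⟨Finset.mem_coe.1 hx4, hx3⟩))
          · exact absurd (Finset.mem_coe.2 hx1) hx4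
        exact ⟨hDs a haΛ' haV' haE haD, hDs b hbΛ' hbV' hbE hbD⟩
    rcases ha with ha | ⟨y, hy, haW⟩
    · -- `a` is in a cell of `𝒱`, so the cell of `b` is a boundary cell: contradiction
      exfalso
      obtain ⟨e1, e2, e3, e4⟩ := hcell a
      obtain ⟨f1, f2, f3, f4⟩ := hcell b
      have hcb : ((b.1 / u, b.2 / u) : Site) ∉ 𝒱 := by
        intro hcb
        apply hb.2
        rw [hU, Finset.mem_filter]
        refine ⟨?_, Or.inl hcb⟩
        have hcb' := hV2 hcb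
        rw [mem_box] at hcb'
        push_cast at hcb'
        rw [hΛ, mem_box]
        push_cast
        obtain ⟨⟨g1, g2⟩, ⟨g3, g4⟩⟩ := hcb'
        exact ⟨cell_in u n _ b.1 (by linarith) (by linarith) g1 g2 f1 f2,
          cell_in u n _ b.2 (by linarith) (by linarith) g3 g4 f3 f4⟩
      have hbb : ((b.1 / u, b.2 / u) : Site) ∈ bdy 𝒱 := by
        unfold bdy
        rw [Finset.mem_sdiff, mem_hull]
        refine ⟨⟨_, ha, ?_⟩, hcb⟩
        rw [mem_bx]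
        have g1 := div_near u a.1 b.1 (by linarith) (by linarith)
        have g2 := div_near u b.1 a.1 (by linarith) (by linarith)
        have g3 := div_near u a.2 b.2 (by linarith) (by linarith)
        have g4 := div_near u b.2 a.2 (by linarith) (by linarith)
        push_cast
        exact ⟨⟨by linarith, by linarith⟩, ⟨by linarith, by linarith⟩⟩
      exact hbnot _ hbb (hball _ _ ⟨f1, f2⟩ ⟨f3, f4⟩)
    · exact hfar y hy haW

end Pool.Agent.H2.RFZ
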