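import Pool.Agent.H98.RFZ.Targets3

/-!
# rfz_modules row QUP (helper2): upper bound for the tension with probability at least 3/4
-/

set_option autoImplicit false

open MeasureTheory

namespace Pool.Agent.H2.RFZ

open Pool.Agent.H98.RFC Pool.Agent.H98.RFZ

namespace Up

theorem mem_bx {y v : Site} {r : ℕ} :
    y ∈ bx v r ↔ (v.1 - r ≤ y.1 ∧ y.1 ≤ v.1 + r) ∧ (v.2 - r ≤ y.2 ∧ y.2 ≤ v.2 + r) := by
  unfold bx
  rw [Finset.mem_product, Finset.mem_Icc, Finset.mem_Icc]

theorem mem_box {y : Site} {r : ℕ} :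
    y ∈ box r ↔ (-(r : ℤ) ≤ y.1 ∧ y.1 ≤ r) ∧ (-(r : ℤ) ≤ y.2 ∧ y.2 ≤ r) := by
  unfold box
  rw [Finset.mem_product, Finset.mem_Icc, Finset.mem_Icc]

theorem mem_eb_bx {z x : Site} {r : ℕ} (h : x ∈ eb z r) : x ∈ bx z r := by
  unfold eb at h
  exact (Finset.mem_filter.1 h).1

theorem one_dim (u a b x C : ℤ) (hu : 0 < u) (h1 : u * a - C * u ≤ x) (h2 : x ≤ u * a + C * u)
    (h3 : u * b - C * u ≤ x) (h4 : x ≤ u * b + C * u) : -(2 * C) ≤ a - b ∧ a - b ≤ 2 * C := by
  have h5 : u * (a - b) ≤ u * (2 * C) := by linarith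
  have h6 : u * (-(2 * C)) ≤ u * (a - b) := by linarith
  exact ⟨le_of_mul_le_mul_left h6 hu, le_of_mul_le_mul_left h5 hu⟩

theorem disj (u C : ℕ) (hu : 0 < u) (y y' : Site) (h : y - y' ∉ box (2 * C)) :
    Disjoint (eb (sm u y) (C * u)) (eb (sm u y') (C * u)) := by
  rw [Finset.disjoint_left]
  intro x hx hx'
  apply h
  have a := mem_eb_bx hx
  have a' := mem_eb_bx hx'
  rw [mem_bx] at a a'
  unfold sm at a a'
  push_cast at a a'
  rw [mem_box, Prod.fst_sub, Prod.snd_sub]
  push_cast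
  have hu' : (0 : ℤ) < u := by exact_mod_cast hu
  exact ⟨one_dim u y.1 y'.1 x.1 C hu' a.1.1 a.1.2 a'.1.1 a'.1.2,
    one_dim u y.2 y'.2 x.2 C hu' a.2.1 a.2.2 a'.2.1 a'.2.2⟩

instance : IsProbabilityMeasure gam := by
  unfold gam
  infer_instance

end Up

open Up

theorem pf_QUP (h1 : Q_TEN) (h2 : Q_PRC) (h3 : Q_CZ) (h4 : Z_IND) (_h5 : Z_TEN) : Q_UP := by
  classical
  obtain ⟨C₄, hC4, hP⟩ := h2
  refine ⟨4 * C₄, by linarith, ?_⟩
  intro C hC
  obtain ⟨δ₀, hδ0, hδ1, n₀, hn₀⟩ := hP (2 * C)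
  refine ⟨δ₀, hδ0, hδ1, max n₀ (C + 2), ?_⟩
  intro n hn R J hJ ε c u hc hu hδ
  have hn1 : n₀ ≤ n := le_trans (le_max_left _ _) hn
  have hn2 : C + 2 ≤ n := le_trans (le_max_right _ _) hn
  have hu0 : 0 < u := by omega
  have hmeas : ∀ y : Site, MeasurableSet
      {η : Site → ℝ | c < cz R J (fun x => ε * η x) u C (sm u y)} := by
    intro y
    exact measurableSet_lt measurable_const (h3 R J hJ ε u C (sm u y)).1
  have hpr := hn₀ n hn1 (Site → ℝ) gam
    (fun y => {η : Site → ℝ | c < cz R J (fun x => ε * η x) u C (sm u y)}) hmeas ?_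
  · refine hpr.trans (ENNReal.toReal_mono (measure_ne_top _ _) (measure_mono ?_))
    rintro η ⟨𝒱, hV1, hV2, hV3, hV4⟩
    rw [Set.mem_ofPred_eq]
    have hb : ∀ y ∈ bdy 𝒱, cz R J (fun x => ε * η x) u C (sm u y) ≤ c := by
      intro y hy
      have := hV3 y hy
      rw [Set.mem_ofPred_eq, not_lt] at this
      exact this
    have := h1 R J hJ (fun x => ε * η x) u n C c 𝒱 hu hC hn2 hV1 hV2 hb
    refine this.trans ?_
    have h6 : c * ((bdy 𝒱).card : ℝ) ≤ c * (C₄ * n) := mul_le_mul_of_nonneg_left hV4 hc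
    linarith
  · intro S hS
    have hind := h4 S.card (fun i => eb (sm u (S.equivFin.symm i : Site)) (C * u))
      (fun i => {η : Site → ℝ | c < cz R J (fun x => ε * η x) u C
        (sm u (S.equivFin.symm i : Site))}) ?_ (fun i => hmeas _) ?_
    · have hset : (⋂ y ∈ S, {η : Site → ℝ | c < cz R J (fun x => ε * η x) u C (sm u y)}) =
          ⋂ i : Fin S.card, {η : Site → ℝ | c < cz R J (fun x => ε * η x) u C
            (sm u (S.equivFin.symm i : Site))} := by
        ext η
        simp only [Set.mem_iInter]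
        constructor
        · intro h i
          exact h _ (S.equivFin.symm i).2
        · intro h y hy
          have := h (S.equivFin ⟨y, hy⟩)
          rw [Equiv.symm_apply_apply] at this
          exact this
      rw [hset, hind, ENNReal.toReal_prod]
      calc ∏ i : Fin S.card, (gam {η : Site → ℝ | c < cz R J (fun x => ε * η x) u C
            (sm u (S.equivFin.symm i : Site))}).toReal
          ≤ ∏ _i : Fin S.card, δ₀ := by
            refine Finset.prod_le_prod (fun i _ => ENNReal.toReal_nonneg) (fun i _ => ?_)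
            rw [(h3 R J hJ ε u C (sm u (S.equivFin.symm i : Site))).2.2.2.1 c]
            exact hδ
        _ = δ₀ ^ S.card := by rw [Finset.prod_const, Finset.card_univ, Fintype.card_fin]
    · intro i j hij
      refine disj u C hu0 _ _ (hS _ (S.equivFin.symm i).2 _ (S.equivFin.symm j).2 ?_)
      intro h
      exact hij (S.equivFin.symm.injective (Subtype.ext h))
    · intro i η η' hη hmem
      rw [Set.mem_ofPred_eq] at hmem ⊢
      rw [← (h3 R J hJ ε u C (sm u (S.equivFin.symm i : Site))).2.2.1 η η' hη]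
      exact hmem

end Pool.Agent.H2.RFZ
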